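import Pool.Agent.Q211.SD.Graph

/-!
# A transitive 4-regular graph with a factor of i.i.d. Schreier decoration with infinite
monochromatic paths
-/

set_option autoImplicit false

open MeasureTheory ProbabilityTheory Filter Topology Set

namespace Pool.Agent.Results.MP_a13a55_pr.InfiniteMonochromatic

open Pool.Agent.Q211.FI Pool.Agent.Q211.SD

/-- The number of ascents of the labels at the level `i` in the direction `k`. -/
noncomputable def asc (ω : V → unitInterval) (i : ℤ) (k : Fin 4) : ℕ :=
  ∑ x : ZMod 7, if ω (x, i) < ω (nb (x, i) k) then 1 else 0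

/-- The decoration of the four edges at a vertex of the level `i`. -/
noncomputable def val (ω : V → unitInterval) (i : ℤ) : Fin 4 → Bool × Fin 2
  | 0 => (true, 0)
  | 1 => (false, 0)
  | 2 => (decide (4 ≤ asc ω i 2), 1)
  | 3 => (decide (4 ≤ asc ω i 3), 1)

open Classical in
/-- The factor map. -/
noncomputable def F (ω : V → unitInterval) (u w : V) : Bool × Fin 2 :=
  if h : ∃ k, w = nb u k then val ω u.2 h.choose else (false, 0)

theorem F_nb (ω : V → unitInterval) (u : V) (k : Fin 4) : F ω u (nb u k) = val ω u.2 k := by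
  unfold F
  have h : ∃ l, nb u k = nb u l := ⟨k, rfl⟩
  rw [dif_pos h]
  have := nb_inj u h.choose_spec
  rw [← this]

theorem F_not (ω : V → unitInterval) (u w : V) (h : ¬ ∃ k, w = nb u k) : F ω u w = (false, 0) := by
  unfold F
  rw [dif_neg h]

theorem asc_aff (ω : V → unitInterval) (c : ZMod 7) (j : ℤ) (e : Bool) (i : ℤ) (k : Fin 4) :
    asc (fun v => ω (affG c j e v)) i k = asc ω (i + j) (dir e k) := by
  unfold asc
  let f : ZMod 7 → ZMod 7 := fun x => sg e * p2 j * x + c
  have hf : Function.Bijective f := by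
    rw [← Finite.injective_iff_bijective]
    intro x y h
    have h1 : (affG c j e) (x, (0 : ℤ)) = (affG c j e) (y, 0) := by
      rw [affG_apply, affG_apply]
      simpa [f] using h
    exact congrArg Prod.fst ((affG c j e).injective h1)
  have h2 := Function.Bijective.sum_comp hf
    (fun y => if ω (y, i + j) < ω (nb (y, i + j) (dir e k)) then 1 else 0)
  rw [← h2]
  refine Finset.sum_congr rfl fun x _ => ?_
  have h3 : affG c j e (x, i) = (f x, i + j) := rfl
  have h4 : affG c j e (nb (x, i) k) = nb (f x, i + j) (dir e k) := by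
    have := aff_nb c j e (x, i) k
    exact this
  simp only [h3, h4]

theorem val_aff (ω : V → unitInterval) (c : ZMod 7) (j : ℤ) (e : Bool) (i : ℤ) (k : Fin 4) :
    val (fun v => ω (affG c j e v)) i k = val ω (i + j) (dir e k) := by
  have h := asc_aff ω c j e i
  cases e <;> fin_cases k <;> simp [val, dir, h]

theorem F_aff (ω : V → unitInterval) (c : ZMod 7) (j : ℤ) (e : Bool) (u w : V) :
    F (fun v => ω (affG c j e v)) u w = F ω (affG c j e u) (affG c j e w) := by
  by_cases h : ∃ k, w = nb u k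
  · obtain ⟨k, rfl⟩ := h
    have h1 : affG c j e (nb u k) = nb (affG c j e u) (dir e k) := aff_nb c j e u k
    rw [F_nb, h1, F_nb, val_aff]
    rfl
  · rw [F_not _ _ _ h, F_not]
    rintro ⟨k, hk⟩
    apply h
    refine ⟨dir e k, ?_⟩
    apply (affG c j e).injective
    have h1 : affG c j e (nb u (dir e k)) = nb (affG c j e u) (dir e (dir e k)) :=
      aff_nb c j e u _
    rw [hk, h1, dir_dir]

theorem measurable_asc (i : ℤ) (k : Fin 4) : Measurable fun ω : V → unitInterval => asc ω i k := by
  unfold asc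
  refine Finset.measurable_sum _ fun x _ => ?_
  exact Measurable.ite (measurableSet_lt (measurable_pi_apply _) (measurable_pi_apply _))
    measurable_const measurable_const

theorem measurable_val (i : ℤ) (k : Fin 4) : Measurable fun ω : V → unitInterval => val ω i k := by
  have h : ∀ k, Measurable fun ω : V → unitInterval => decide (4 ≤ asc ω i k) := by
    intro k
    have h1 : Measurable fun n : ℕ => decide (4 ≤ n) := measurable_from_top
    exact h1.comp (measurable_asc i k)
  fin_cases k
  · exact measurable_const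
  · exact measurable_const
  · exact (h 2).prodMk measurable_const
  · exact (h 3).prodMk measurable_const

theorem isFactor_F : IsFactor G F where
  meas := by
    refine measurable_pi_lambda _ fun u => measurable_pi_lambda _ fun w => ?_
    by_cases h : ∃ k, w = nb u k
    · obtain ⟨k, rfl⟩ := h
      simp only [F_nb]
      exact measurable_val _ _
    · simp only [F_not _ u w h]
      exact measurable_const
  equi γ ω := by
    obtain ⟨c, j, e, h⟩ := aut_classify γ.symm
    funext u w
    show F (fun v => ω (γ.symm v)) u w = F ω (γ.symm u) (γ.symm w)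
    rw [h]
    exact F_aff ω c j e u w

theorem asc_sum (ω : V → unitInterval) (hω : ∀ v, ω v ≠ ω (nb v 2)) (i : ℤ) :
    asc ω i 2 + asc ω i 3 = 7 := by
  unfold asc
  have h1 : ∑ x : ZMod 7, (if ω (x, i) < ω (nb (x, i) 3) then 1 else 0) =
      ∑ x : ZMod 7, if ω (nb (x, i) 2) < ω (x, i) then 1 else 0 := by
    have h0 := Equiv.sum_comp (Equiv.addRight (p2 i))
      (fun x : ZMod 7 => if ω (x, i) < ω (nb (x, i) 3) then 1 else 0)
    rw [← h0]
    refine Finset.sum_congr rfl fun x _ => ?_
    have e : nb ((Equiv.addRight (p2 i)) x, i) 3 = (x, i) := by simp [nb]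
    rw [e]
    rfl
  rw [h1, ← Finset.sum_add_distrib]
  have h2 : ∀ x : ZMod 7, ((if ω (x, i) < ω (nb (x, i) 2) then 1 else 0) +
      if ω (nb (x, i) 2) < ω (x, i) then 1 else 0) = 1 := by
    intro x
    rcases lt_or_gt_of_ne (hω (x, i)) with h | h
    · rw [if_pos h, if_neg (not_lt.2 h.le)]
    · rw [if_neg (not_lt.2 h.le), if_pos h]
  simp [h2]

theorem nb_fst (v : V) (k : Fin 4) (hk : k = 2 ∨ k = 3) : (nb v k).2 = v.2 := by
  rcases hk with rfl | rfl <;> rfl

theorem val_opp (ω : V → unitInterval) (hω : ∀ v, ω v ≠ ω (nb v 2)) (v : V) (k : Fin 4) :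
    ((val ω v.2 k).1 = true ↔ ¬ (val ω (nb v k).2 (opp k)).1 = true) ∧
      (val ω v.2 k).2 = (val ω (nb v k).2 (opp k)).2 := by
  have h := asc_sum ω hω v.2
  have hk : ∀ k : Fin 4, k = 0 ∨ k = 1 ∨ k = 2 ∨ k = 3 := by decide
  rcases hk k with rfl | rfl | rfl | rfl
  · simp [val, opp]
  · simp [val, opp]
  · show (decide (4 ≤ asc ω v.2 2) = true ↔ ¬ decide (4 ≤ asc ω v.2 3) = true) ∧ (1 : Fin 2) = 1
    rw [decide_eq_true_eq, decide_eq_true_eq]
    refine ⟨?_, rfl⟩
    omega
  · show (decide (4 ≤ asc ω v.2 3) = true ↔ ¬ decide (4 ≤ asc ω v.2 2) = true) ∧ (1 : Fin 2) = 1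
    rw [decide_eq_true_eq, decide_eq_true_eq]
    refine ⟨?_, rfl⟩
    omega

theorem schreier (ω : V → unitInterval) (hω : ∀ v, ω v ≠ ω (nb v 2)) : IsSchreier G 2 (F ω) := by
  have hopp : ∀ v k, F ω (nb v k) v = val ω (nb v k).2 (opp k) := by
    intro v k
    have := F_nb ω (nb v k) (opp k)
    rwa [nb_opp] at this
  refine ⟨⟨fun u v h => ?_, ?_⟩, ?_, fun v i => ⟨?_, ?_⟩⟩
  · by_contra hn
    have h' : (F ω u v).1 = true := h
    rw [F_not _ _ _ hn] at h'
    exact absurd h' (by simp)
  · rintro u _ ⟨k, rfl⟩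
    show (F ω u (nb u k)).1 = true ↔ ¬ (F ω (nb u k) u).1 = true
    rw [F_nb, hopp]
    exact (val_opp ω hω u k).1
  · rintro u _ ⟨k, rfl⟩
    rw [F_nb, hopp]
    exact (val_opp ω hω u k).2
  · have h1 : {u | (F ω v u).1 = true ∧ (F ω v u).2 = i} =
        nb v '' {k | (val ω v.2 k).1 = true ∧ (val ω v.2 k).2 = i} := by
      ext u
      constructor
      · rintro ⟨h1, h2⟩
        by_cases h : ∃ k, u = nb v k
        · obtain ⟨k, rfl⟩ := h
          rw [F_nb] at h1 h2
          exact ⟨k, ⟨h1, h2⟩, rfl⟩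
        · rw [F_not _ _ _ h] at h1
          exact absurd h1 (by simp)
      · rintro ⟨k, ⟨h1, h2⟩, rfl⟩
        refine ⟨?_, ?_⟩
        · rw [F_nb]; exact h1
        · rw [F_nb]; exact h2
    rw [h1, Set.ncard_image_of_injective _ (nb_inj v), Set.ncard_eq_one]
    have h := asc_sum ω hω v.2
    by_cases h4 : 4 ≤ asc ω v.2 2
    · have h5 : ¬ 4 ≤ asc ω v.2 3 := by omega
      fin_cases i
      · refine ⟨0, ?_⟩
        ext k
        fin_cases k <;> simp [val]
      · refine ⟨2, ?_⟩
        ext k
        fin_cases k <;> simp [val, h4, h5]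
    · have h5 : 4 ≤ asc ω v.2 3 := by omega
      fin_cases i
      · refine ⟨0, ?_⟩
        ext k
        fin_cases k <;> simp [val]
      · refine ⟨3, ?_⟩
        ext k
        fin_cases k <;> simp [val, h4, h5]
  · have h1 : {u | (F ω u v).1 = true ∧ (F ω u v).2 = i} =
        nb v '' {k | (val ω (nb v k).2 (opp k)).1 = true ∧ (val ω (nb v k).2 (opp k)).2 = i} := by
      ext u
      constructor
      · rintro ⟨h1, h2⟩
        by_cases h : ∃ k, v = nb u k
        · obtain ⟨k, rfl⟩ := h
          have hu : u = nb (nb u k) (opp k) := (nb_opp u k).symm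
          refine ⟨opp k, ?_, hu.symm⟩
          rw [mem_ofPred_eq, ← hopp, ← hu]
          exact ⟨h1, h2⟩
        · rw [F_not _ _ _ h] at h1
          exact absurd h1 (by simp)
      · rintro ⟨k, ⟨h1, h2⟩, rfl⟩
        refine ⟨?_, ?_⟩
        · rw [hopp]; exact h1
        · rw [hopp]; exact h2
    rw [h1, Set.ncard_image_of_injective _ (nb_inj v), Set.ncard_eq_one]
    have h := asc_sum ω hω v.2
    by_cases h4 : 4 ≤ asc ω v.2 2
    · have h5 : ¬ 4 ≤ asc ω v.2 3 := by omega
      fin_cases i
      · refine ⟨1, ?_⟩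
        ext k
        fin_cases k <;> simp [val, opp, nb]
      · refine ⟨3, ?_⟩
        ext k
        fin_cases k <;> simp [val, opp, nb, h4, h5]
    · have h5 : 4 ≤ asc ω v.2 3 := by omega
      fin_cases i
      · refine ⟨1, ?_⟩
        ext k
        fin_cases k <;> simp [val, opp, nb]
      · refine ⟨2, ?_⟩
        ext k
        fin_cases k <;> simp [val, opp, nb, h4, h5]

theorem ae_ne {u w : V} (huw : u ≠ w) : ∀ᵐ ω ∂(iid V), ω u ≠ ω w := by
  have h1 : (iid V).map (fun ω => (ω u, ω w)) =
      (volume : Measure unitInterval).prod volume :=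
    Measure.infinitePi_map_eval_prod (P := fun _ : V => (volume : Measure unitInterval)) huw
  have hs : MeasurableSet {p : unitInterval × unitInterval | p.1 = p.2} :=
    measurableSet_eq_fun measurable_fst measurable_snd
  have h2 : ∀ᵐ p ∂((iid V).map (fun ω => (ω u, ω w))), p.1 ≠ p.2 := by
    rw [h1, ae_iff]
    simp only [ne_eq, not_not]
    rw [Measure.measure_prod_null hs]
    refine Eventually.of_forall fun x => ?_
    have : Prod.mk x ⁻¹' {p : unitInterval × unitInterval | p.1 = p.2} = {x} := by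
      ext y
      simp [eq_comm]
    show (volume : Measure unitInterval)
      (Prod.mk x ⁻¹' {p : unitInterval × unitInterval | p.1 = p.2}) = 0
    rw [this]
    simp
  exact ae_of_ae_map ((measurable_pi_apply u).prodMk (measurable_pi_apply w)).aemeasurable h2

theorem ae_noties : ∀ᵐ ω ∂(iid V), ∀ v, ω v ≠ ω (nb v 2) := by
  rw [ae_all_iff]
  exact fun v => ae_ne (nb_ne v 2).symm

/-- There is a connected, vertex transitive, 4-regular graph on a countable vertex set with a
factor of i.i.d. Schreier decoration which almost surely has an infinite monochromatic path. -/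
theorem result : ∃ (V : Type) (_ : Countable V) (G : SimpleGraph V),
    G.Connected ∧ (∀ v, (G.neighborSet v).ncard = 2 * 2) ∧
    (∀ u v : V, ∃ γ : G ≃g G, γ u = v) ∧
    ∃ Φ : (V → unitInterval) → V → V → Bool × Fin 2, IsFactor G Φ ∧
      (∀ᵐ ω ∂(iid V), IsSchreier G 2 (Φ ω)) ∧
      ∀ᵐ ω ∂(iid V), ∃ (i : Fin 2) (p : ℕ → V), Function.Injective p ∧
        ∀ n, G.Adj (p n) (p (n + 1)) ∧ (Φ ω (p n) (p (n + 1))).2 = i := by
  refine ⟨V, inferInstance, G, connected, regular, transitive, F, isFactor_F, ?_, ?_⟩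
  · filter_upwards [ae_noties] with ω hω
    exact schreier ω hω
  · refine Eventually.of_forall fun ω => ⟨0, fun n => (0, (n : ℤ)), ?_, fun n => ?_⟩
    · intro m n h
      simpa using h
    · have h : ((0 : ZMod 7), ((n + 1 : ℕ) : ℤ)) = nb (0, (n : ℤ)) 0 := by
        simp [nb]
      refine ⟨⟨0, h⟩, ?_⟩
      simp only
      rw [h, F_nb]
      rfl

end Pool.Agent.Results.MP_a13a55_pr.InfiniteMonochromatic
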